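import Pool.Agent.H49.KNN.Param

/-!
# Choice of the parameter
-/

namespace Pool.Agent.H49.KNN

open Filter Real

theorem half_le_log : (1 / 2 : ℝ) ≤ Real.log (27 / 16) := by
  rw [Real.le_log_iff_exp_le (by norm_num)]
  have h1 : Real.exp (1 / 2) * Real.exp (1 / 2) = Real.exp 1 := by
    rw [← Real.exp_add]; norm_num
  have h2 : Real.exp 1 < 2.7182818286 := Real.exp_one_lt_d9
  have h3 : (0 : ℝ) < Real.exp (1 / 2) := Real.exp_pos _
  nlinarith

theorem ev_gain : ∀ᶠ P : ℕ in atTop,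
    4 * (P : ℝ) * Real.exp (((P : ℝ) + 1) ^ (7 / 8 : ℝ)) ≤
      (27 / 16 : ℝ) ^ (Nat.primeCounting P / 4) := by
  have e1 : ∀ᶠ x : ℝ in atTop, Real.log x ≤ x ^ (1 / 32 : ℝ) := by
    have h := (isLittleO_log_rpow_atTop (r := (1 / 32 : ℝ)) (by norm_num)).bound
      (c := 1) one_pos
    filter_upwards [h, eventually_ge_atTop (1 : ℝ)] with x hx hx1
    rw [Real.norm_eq_abs, Real.norm_eq_abs, one_mul, abs_of_nonneg (Real.log_nonneg hx1),
      abs_of_nonneg (by positivity)] at hx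
    exact hx
  have e2 : ∀ᶠ x : ℝ in atTop, Real.log x ≤ (1 / 2) * x ^ (7 / 8 : ℝ) := by
    have h := (isLittleO_log_rpow_atTop (r := (7 / 8 : ℝ)) (by norm_num)).bound
      (c := 1 / 2) (by norm_num)
    filter_upwards [h, eventually_ge_atTop (1 : ℝ)] with x hx hx1
    rw [Real.norm_eq_abs, Real.norm_eq_abs, abs_of_nonneg (Real.log_nonneg hx1),
      abs_of_nonneg (by positivity)] at hx
    exact hx
  have e3 : ∀ᶠ x : ℝ in atTop, 64 ≤ x ^ (3 / 32 : ℝ) :=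
    (tendsto_rpow_atTop (by norm_num)).eventually_ge_atTop 64
  have e4 : ∀ᶠ x : ℝ in atTop, 64 ≤ x ^ (7 / 8 : ℝ) :=
    (tendsto_rpow_atTop (by norm_num)).eventually_ge_atTop 64
  have hcast : Tendsto (fun P : ℕ => (P : ℝ)) atTop atTop := tendsto_natCast_atTop_atTop
  filter_upwards [hcast.eventually e1, hcast.eventually e2, hcast.eventually e3,
    hcast.eventually e4, eventually_ge_atTop 4] with P h1 h2 h3 h4 hP
  set x : ℝ := (P : ℝ) with hx
  have hx4 : (4 : ℝ) ≤ x := by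
    have h0 : ((4 : ℕ) : ℝ) ≤ (P : ℝ) := Nat.cast_le.mpr hP
    rw [hx]; simpa using h0
  have hx0 : (0 : ℝ) < x := by linarith
  set A := x ^ (7 / 8 : ℝ) with hA
  set B := x ^ (3 / 32 : ℝ) with hB
  have hA0 : 0 < A := Real.rpow_pos_of_pos hx0 _
  have hlog4x : Real.log (4 * x) ≤ A := by
    rw [Real.log_mul (by norm_num) hx0.ne']
    have h5 : Real.log 4 ≤ 3 := by
      have := Real.log_le_sub_one_of_pos (show (0 : ℝ) < 4 by norm_num)
      linarith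
    linarith
  have hAx : 64 * A ≤ x := by
    have h5 : x = A * x ^ (1 / 8 : ℝ) := by
      rw [hA, ← Real.rpow_add hx0]; norm_num
    have h6 : B ≤ x ^ (1 / 8 : ℝ) := by
      rw [hB]; exact Real.rpow_le_rpow_of_exponent_le (by linarith) (by norm_num)
    nlinarith
  have hlogx : 0 < Real.log x := Real.log_pos (by linarith)
  have hpi : A * B / 2 ≤ (Nat.primeCounting P : ℝ) := by
    have h5 := Chebyshev.pi_ge P
    refine le_trans ?_ h5
    rw [← hx, le_div_iff₀ hlogx]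
    have h6 : A * B * x ^ (1 / 32 : ℝ) = x := by
      rw [hA, hB, ← Real.rpow_add hx0, ← Real.rpow_add hx0]; norm_num
    have h7 : A * B / 2 * Real.log x ≤ x / 2 := by
      calc A * B / 2 * Real.log x ≤ A * B / 2 * x ^ (1 / 32 : ℝ) :=
            mul_le_mul_of_nonneg_left h1 (by positivity)
        _ = (A * B * x ^ (1 / 32 : ℝ)) / 2 := by ring
        _ = x / 2 := by rw [h6]
    have h8 : Real.log (x + 1) ≤ A := by
      refine (Real.log_le_log (by linarith) (by linarith)).trans hlog4x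
    have h9 : (0.6931471803 : ℝ) < Real.log 2 := Real.log_two_gt_d9
    nlinarith
  have hd : (Nat.primeCounting P : ℝ) ≤ 4 * ((Nat.primeCounting P / 4 : ℕ) : ℝ) + 3 := by
    have : Nat.primeCounting P ≤ 4 * (Nat.primeCounting P / 4) + 3 := by omega
    exact_mod_cast this
  set d := Nat.primeCounting P / 4 with hdd
  have hxA : (x + 1) ^ (7 / 8 : ℝ) ≤ 2 * A := by
    calc (x + 1) ^ (7 / 8 : ℝ) ≤ (2 * x) ^ (7 / 8 : ℝ) :=
          Real.rpow_le_rpow (by linarith) (by linarith) (by norm_num)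
      _ = 2 ^ (7 / 8 : ℝ) * A := by rw [Real.mul_rpow (by norm_num) hx0.le]
      _ ≤ 2 * A := by
          apply mul_le_mul_of_nonneg_right _ hA0.le
          calc (2 : ℝ) ^ (7 / 8 : ℝ) ≤ 2 ^ (1 : ℝ) :=
                Real.rpow_le_rpow_of_exponent_le (by norm_num) (by norm_num)
            _ = 2 := Real.rpow_one 2
  have hmain : Real.log (4 * x) + (x + 1) ^ (7 / 8 : ℝ) ≤ d * Real.log (27 / 16) := by
    have h5 : (d : ℝ) * (1 / 2) ≤ d * Real.log (27 / 16) :=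
      mul_le_mul_of_nonneg_left half_le_log (by positivity)
    have h6 : A * 64 ≤ A * B := mul_le_mul_of_nonneg_left h3 hA0.le
    nlinarith
  have hpos : (0 : ℝ) < 4 * x := by linarith
  calc 4 * x * Real.exp ((x + 1) ^ (7 / 8 : ℝ))
      = Real.exp (Real.log (4 * x) + (x + 1) ^ (7 / 8 : ℝ)) := by
        rw [Real.exp_add, Real.exp_log hpos]
    _ ≤ Real.exp (d * Real.log (27 / 16)) := Real.exp_le_exp.mpr hmain
    _ = (27 / 16 : ℝ) ^ d := by
        rw [mul_comm, ← Real.rpow_def_of_pos (by norm_num : (0 : ℝ) < 27 / 16),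
          Real.rpow_natCast]

/-- Conditions on the parameter. -/
theorem ev_param : ∀ᶠ P : ℕ in atTop, 4 ^ 8 ≤ P ∧ 54 ≤ Nat.primeCounting P ∧
    2 * (P : ℝ) * Real.exp (((P : ℝ) + 1) ^ (7 / 8 : ℝ)) ≤
      (27 / 16 : ℝ) ^ (Nat.primeCounting P / 4) - 1 := by
  filter_upwards [eventually_ge_atTop (4 ^ 8),
    Nat.tendsto_primeCounting.eventually_ge_atTop 54, ev_gain] with P h1 h2 h3
  refine ⟨h1, h2, ?_⟩
  have h4 : (1 : ℝ) ≤ P := by
    have : 1 ≤ P := le_trans (by norm_num) h1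
    exact_mod_cast this
  have h5 : (1 : ℝ) ≤ Real.exp (((P : ℝ) + 1) ^ (7 / 8 : ℝ)) := by
    rw [← Real.exp_zero]
    exact Real.exp_le_exp.mpr (by positivity)
  nlinarith

/-- **The bound for large `n`.** -/
theorem exists_drawing : ∀ᶠ n : ℕ in atTop, ∃ m : ℕ, 1 ≤ m ∧ CanBeDrawn (Knn n) m m m ∧
    (m : ℝ) ≤ n * Real.exp (-(Real.log n) ^ (1 / 12 : ℝ)) := by
  have hlog : Tendsto (fun n : ℕ => Real.log (n : ℝ)) atTop atTop :=
    Real.tendsto_log_atTop.comp tendsto_natCast_atTop_atTop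
  have hy : Tendsto (fun y : ℝ => ⌊y ^ (2 / 21 : ℝ)⌋₊) atTop atTop :=
    tendsto_nat_floor_atTop.comp (tendsto_rpow_atTop (by norm_num))
  have hylarge : ∀ᶠ y : ℝ in atTop, 3 ≤ y ^ (1 / 21 : ℝ) :=
    (tendsto_rpow_atTop (by norm_num)).eventually_ge_atTop 3
  have hcomb : ∀ᶠ y : ℝ in atTop, (4 ^ 8 ≤ ⌊y ^ (2 / 21 : ℝ)⌋₊ ∧
      54 ≤ Nat.primeCounting ⌊y ^ (2 / 21 : ℝ)⌋₊ ∧
      2 * (⌊y ^ (2 / 21 : ℝ)⌋₊ : ℝ) * Real.exp (((⌊y ^ (2 / 21 : ℝ)⌋₊ : ℝ) + 1) ^ (7 / 8 : ℝ)) ≤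
      (27 / 16 : ℝ) ^ (Nat.primeCounting ⌊y ^ (2 / 21 : ℝ)⌋₊ / 4) - 1) ∧
      3 ≤ y ^ (1 / 21 : ℝ) ∧ 1 ≤ y :=
    (hy.eventually ev_param).and (hylarge.and (eventually_ge_atTop 1))
  filter_upwards [hlog.eventually hcomb, eventually_ge_atTop 1] with n hn hn1
  obtain ⟨⟨hP1, hP2, hP3⟩, hy3, hy1⟩ := hn
  set y := Real.log (n : ℝ) with hyd
  set P := ⌊y ^ (2 / 21 : ℝ)⌋₊ with hPd
  have hn0 : (0 : ℝ) < n := by exact_mod_cast hn1
  have hy0 : 0 < y := by linarith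
  have hPy : (P : ℝ) ≤ y ^ (2 / 21 : ℝ) := Nat.floor_le (by positivity)
  have hPy' : y ^ (2 / 21 : ℝ) < P + 1 := Nat.lt_floor_add_one _
  have hPge : (4 : ℝ) ≤ P := by
    have : 4 ≤ P := le_trans (by norm_num) hP1
    exact_mod_cast this
  have hP0 : (0 : ℝ) < P := by linarith
  -- `n` is large enough
  have hbig : 4 ^ (P ^ 10 + P) ≤ n := by
    have h1 : (P : ℝ) ^ 10 ≤ y ^ (20 / 21 : ℝ) := by
      calc (P : ℝ) ^ 10 ≤ (y ^ (2 / 21 : ℝ)) ^ 10 := pow_le_pow_left₀ hP0.le hPy 10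
        _ = y ^ (20 / 21 : ℝ) := by
            rw [← Real.rpow_natCast, ← Real.rpow_mul hy0.le]; norm_num
    have h2 : (P : ℝ) ≤ (P : ℝ) ^ 10 := by
      calc (P : ℝ) = (P : ℝ) ^ 1 := (pow_one _).symm
        _ ≤ (P : ℝ) ^ 10 := pow_le_pow_right₀ (by linarith) (by norm_num)
    have h3 : y ^ (20 / 21 : ℝ) * y ^ (1 / 21 : ℝ) = y := by
      rw [← Real.rpow_add hy0]; norm_num
    have h4 : Real.log 4 ≤ 3 / 2 := by
      have h5 : Real.log 4 = 2 * Real.log 2 := by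
        rw [show (4 : ℝ) = 2 ^ 2 by norm_num, Real.log_pow]; norm_num
      have h6 : Real.log 2 < 0.6931471808 := Real.log_two_lt_d9
      rw [h5]; linarith
    have h5 : ((P : ℝ) ^ 10 + P) * Real.log 4 ≤ y := by
      have h6 : (0 : ℝ) ≤ (P : ℝ) ^ 10 + P := by positivity
      calc ((P : ℝ) ^ 10 + P) * Real.log 4 ≤ ((P : ℝ) ^ 10 + P) * (3 / 2) :=
            mul_le_mul_of_nonneg_left h4 h6
        _ ≤ 3 * y ^ (20 / 21 : ℝ) := by linarith
        _ ≤ y ^ (20 / 21 : ℝ) * y ^ (1 / 21 : ℝ) := by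
            have : (0 : ℝ) ≤ y ^ (20 / 21 : ℝ) := by positivity
            nlinarith
        _ = y := h3
    have h6 : ((4 : ℝ) ^ (P ^ 10 + P)) ≤ n := by
      have h7 : Real.log ((4 : ℝ) ^ (P ^ 10 + P)) ≤ Real.log n := by
        rw [Real.log_pow]; push_cast; exact h5
      exact (Real.log_le_log_iff (by positivity) hn0).mp h7
    exact_mod_cast h6
  obtain ⟨m, hm1, hm2, hm3⟩ := drawn_of_param P hP1 hP2 n hbig
  refine ⟨m, hm1, hm2, ?_⟩
  set E := Real.exp (((P : ℝ) + 1) ^ (7 / 8 : ℝ)) with hE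
  have hE0 : 0 < E := Real.exp_pos _
  have h1 : (m : ℝ) * (2 * P * E) ≤ 2 * n * P :=
    (mul_le_mul_of_nonneg_left hP3 (by positivity)).trans hm3
  have h2 : (m : ℝ) * E ≤ n := by
    have h3 : (2 * (P : ℝ)) * (m * E) ≤ (2 * (P : ℝ)) * n := by nlinarith
    exact le_of_mul_le_mul_left h3 (by positivity)
  have h4 : y ^ (1 / 12 : ℝ) ≤ ((P : ℝ) + 1) ^ (7 / 8 : ℝ) := by
    calc y ^ (1 / 12 : ℝ) = (y ^ (2 / 21 : ℝ)) ^ (7 / 8 : ℝ) := by
          rw [← Real.rpow_mul hy0.le]; norm_num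
      _ ≤ ((P : ℝ) + 1) ^ (7 / 8 : ℝ) :=
          Real.rpow_le_rpow (by positivity) hPy'.le (by norm_num)
  have h5 : Real.exp (y ^ (1 / 12 : ℝ)) ≤ E := Real.exp_le_exp.mpr h4
  rw [Real.exp_neg, ← div_eq_mul_inv, le_div_iff₀ (Real.exp_pos _)]
  exact (mul_le_mul_of_nonneg_left h5 (by positivity)).trans h2

end Pool.Agent.H49.KNN
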