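import Mathlib

/-!
# Two greedy codes

A maximal family argument, applied to subsets (symmetric difference) and to words over a large
alphabet (number of agreements).
-/

namespace Pool.Agent.H49.KNN

open Finset

set_option linter.unusedSectionVars false

/-- Greedy (maximal family) bound, with a prescribed member. -/
theorem greedy_code {α : Type*} [Fintype α] [DecidableEq α] (r : α → α → Prop)
    [DecidableRel r] (hrefl : ∀ a, r a a) (hsymm : ∀ a b, r a b → r b a) (V : ℕ)
    (hV : ∀ a, (univ.filter (r a)).card ≤ V) (a₀ : α) :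
    ∃ C : Finset α, a₀ ∈ C ∧ (∀ a ∈ C, ∀ b ∈ C, a ≠ b → ¬ r a b) ∧
      Fintype.card α ≤ C.card * V := by
  classical
  let good : Finset (Finset α) := univ.powerset.filter
    (fun C => a₀ ∈ C ∧ ∀ a ∈ C, ∀ b ∈ C, a ≠ b → ¬ r a b)
  have hne : good.Nonempty := by
    refine ⟨{a₀}, ?_⟩
    simp only [good, mem_filter, mem_powerset]
    refine ⟨subset_univ _, mem_singleton_self _, ?_⟩
    intro a ha b hb hab
    rw [mem_singleton] at ha hb
    exact absurd (ha.trans hb.symm) hab
  obtain ⟨C, hC, hmax⟩ := Finset.exists_max_image good Finset.card hne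
  have hC' := (mem_filter.mp hC).2
  refine ⟨C, hC'.1, hC'.2, ?_⟩
  have hcover : (univ : Finset α) ⊆ C.biUnion (fun a => univ.filter (r a)) := by
    intro b _
    rw [mem_biUnion]
    by_contra hcon
    push Not at hcon
    have hb : ∀ a ∈ C, ¬ r a b := fun a ha h => hcon a ha (by simp [h])
    have hbC : b ∉ C := fun h => hb b h (hrefl b)
    have hin : insert b C ∈ good := by
      simp only [good, mem_filter, mem_powerset]
      refine ⟨subset_univ _, mem_insert_of_mem hC'.1, ?_⟩
      intro a ha c hc hac
      rw [mem_insert] at ha hc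
      rcases ha with rfl | ha
      · rcases hc with rfl | hc
        · exact absurd rfl hac
        · exact fun h => hb c hc (hsymm _ _ h)
      · rcases hc with rfl | hc
        · exact hb a ha
        · exact hC'.2 a ha c hc hac
    have := hmax _ hin
    rw [card_insert_of_notMem hbC] at this
    omega
  calc Fintype.card α = (univ : Finset α).card := rfl
    _ ≤ (C.biUnion (fun a => univ.filter (r a))).card := card_le_card hcover
    _ ≤ ∑ a ∈ C, (univ.filter (r a)).card := card_biUnion_le
    _ ≤ ∑ _a ∈ C, V := sum_le_sum fun a _ => hV a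
    _ = C.card * V := by rw [sum_const, smul_eq_mul]

variable {ι : Type*} [Fintype ι] [DecidableEq ι]

/-- The number of small sets. -/
theorem card_small_sets (d : ℕ) (hd : d ≤ Fintype.card ι) :
    ((univ : Finset (Finset ι)).filter (fun U => U.card < d)).card * 3 ^ (Fintype.card ι - d) ≤
      4 ^ Fintype.card ι := by
  have h := Finset.sum_pow_mul_eq_add_pow (R := ℕ) 1 3 (univ : Finset ι)
  have h4 : (1 + 3 : ℕ) = 4 := rfl
  rw [h4, card_univ] at h
  rw [← h]
  calc ((univ : Finset (Finset ι)).filter (fun U => U.card < d)).card * 3 ^ (Fintype.card ι - d)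
      = ∑ _U ∈ (univ : Finset (Finset ι)).filter (fun U => U.card < d),
          3 ^ (Fintype.card ι - d) := by rw [sum_const, smul_eq_mul]
    _ ≤ ∑ U ∈ (univ : Finset (Finset ι)).filter (fun U => U.card < d),
          1 ^ U.card * 3 ^ (Fintype.card ι - U.card) := by
        refine sum_le_sum fun U hU => ?_
        have hU' := (mem_filter.mp hU).2
        rw [one_pow, one_mul]
        exact Nat.pow_le_pow_right (by norm_num) (by omega)
    _ ≤ ∑ U ∈ (univ : Finset ι).powerset, 1 ^ U.card * 3 ^ (Fintype.card ι - U.card) := by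
        refine sum_le_sum_of_subset_of_nonneg ?_ (fun _ _ _ => Nat.zero_le _)
        intro U _
        rw [mem_powerset]
        exact subset_univ U

/-- **A code of subsets.** -/
theorem exists_set_code (d : ℕ) (hd1 : 1 ≤ d) (hd : d ≤ Fintype.card ι) :
    ∃ C : Finset (Finset ι), univ ∈ C ∧
      (∀ S ∈ C, ∀ T ∈ C, S ≠ T → d ≤ (symmDiff S T).card) ∧
      3 ^ (Fintype.card ι - d) ≤ C.card * 2 ^ Fintype.card ι := by
  classical
  set s := Fintype.card ι with hs
  set V := ((univ : Finset (Finset ι)).filter (fun U => U.card < d)).card with hVd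
  have hVb : V * 3 ^ (s - d) ≤ 4 ^ s := card_small_sets d hd
  obtain ⟨C, h1, h2, h3⟩ := greedy_code (α := Finset ι)
    (fun S T => (symmDiff S T).card < d)
    (fun S => by simp only [symmDiff_self, bot_eq_empty, card_empty]; omega)
    (fun S T h => by rwa [symmDiff_comm]) V
    (fun S => by
      rw [hVd]
      refine card_le_card_of_injOn (fun T => symmDiff S T) ?_ ?_
      · intro T hT
        have := (mem_filter.mp (mem_coe.mp hT)).2
        simp only [coe_filter, mem_univ, true_and, Set.mem_ofPred_eq]
        exact this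
      · intro T _ T' _ h
        exact symmDiff_right_injective S h) univ
  refine ⟨C, h1, fun S hS T hT hne => not_lt.mp (h2 S hS T hT hne), ?_⟩
  have h4 : 2 ^ s ≤ C.card * V := by
    rw [Fintype.card_finset] at h3
    exact h3
  have h5 : 2 ^ s * 3 ^ (s - d) ≤ 2 ^ s * (C.card * 2 ^ s) := by
    calc 2 ^ s * 3 ^ (s - d) ≤ C.card * V * 3 ^ (s - d) := Nat.mul_le_mul_right _ h4
      _ = C.card * (V * 3 ^ (s - d)) := by ring
      _ ≤ C.card * 4 ^ s := Nat.mul_le_mul_left _ hVb
      _ = 2 ^ s * (C.card * 2 ^ s) := by
          rw [show (4 : ℕ) = 2 * 2 from rfl, mul_pow]; ring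
  exact Nat.le_of_mul_le_mul_left h5 (by positivity)

/-- The words agreeing with a given word in many places. -/
theorem card_agree (d q : ℕ) (hd : d ≤ Fintype.card ι) (f : ι → Fin q) :
    ((univ : Finset (ι → Fin q)).filter
      (fun g => d ≤ ((univ : Finset ι).filter (fun j => f j = g j)).card)).card ≤
      2 ^ Fintype.card ι * q ^ (Fintype.card ι - d) := by
  classical
  have hsub : (univ : Finset (ι → Fin q)).filter
      (fun g => d ≤ ((univ : Finset ι).filter (fun j => f j = g j)).card) ⊆
      ((univ : Finset ι).powersetCard d).biUnion (fun T =>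
        Fintype.piFinset (fun j => if j ∈ T then {f j} else univ)) := by
    intro g hg
    have hg' := (mem_filter.mp hg).2
    obtain ⟨T, hT1, hT2⟩ := Finset.exists_subset_card_eq hg'
    rw [mem_biUnion]
    refine ⟨T, mem_powersetCard.mpr ⟨subset_univ _, hT2⟩, ?_⟩
    rw [Fintype.mem_piFinset]
    intro j
    by_cases hj : j ∈ T
    · rw [if_pos hj, mem_singleton]
      exact ((mem_filter.mp (hT1 hj)).2).symm
    · rw [if_neg hj]; exact mem_univ _
  refine (card_le_card hsub).trans (card_biUnion_le.trans ?_)
  have hterm : ∀ T ∈ (univ : Finset ι).powersetCard d,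
      (Fintype.piFinset (fun j => if j ∈ T then ({f j} : Finset (Fin q)) else univ)).card
        = q ^ (Fintype.card ι - d) := by
    intro T hT
    have hTc := (mem_powersetCard.mp hT).2
    rw [Fintype.card_piFinset]
    have h1 : ∀ j, (if j ∈ T then ({f j} : Finset (Fin q)) else univ).card
        = if j ∈ T then 1 else q := by
      intro j; split_ifs <;> simp
    simp_rw [h1]
    rw [Finset.prod_ite, prod_const_one, one_mul, prod_const]
    congr 1
    have h2 : (univ : Finset ι).filter (fun j => j ∉ T) = Tᶜ := by
      ext j; simp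
    rw [h2, card_compl, hTc]
  rw [sum_congr rfl hterm, sum_const, smul_eq_mul, card_powersetCard, card_univ]
  exact Nat.mul_le_mul_right _ (Nat.choose_le_two_pow _ _)

/-- **A code of words over a large alphabet.** -/
theorem exists_word_code (d q : ℕ) (hq : 1 ≤ q) (hd : d ≤ Fintype.card ι) :
    ∃ F : Finset (ι → Fin q),
      (∀ f ∈ F, ∀ g ∈ F, f ≠ g → ((univ : Finset ι).filter (fun j => f j = g j)).card < d) ∧
      q ^ d ≤ F.card * 2 ^ Fintype.card ι := by
  classical
  have : NeZero q := ⟨by omega⟩
  obtain ⟨F, -, h2, h3⟩ := greedy_code (α := ι → Fin q)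
    (fun f g => d ≤ ((univ : Finset ι).filter (fun j => f j = g j)).card)
    (fun f => by simpa using hd)
    (fun f g h => by
      have : (univ : Finset ι).filter (fun j => g j = f j) =
        (univ : Finset ι).filter (fun j => f j = g j) := by
        ext j; simp [eq_comm]
      rw [this]; exact h)
    (2 ^ Fintype.card ι * q ^ (Fintype.card ι - d)) (fun f => card_agree d q hd f)
    (fun _ => 0)
  refine ⟨F, fun f hf g hg hne => not_le.mp (h2 f hf g hg hne), ?_⟩
  have h4 : Fintype.card (ι → Fin q) = q ^ Fintype.card ι := by simp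
  rw [h4] at h3
  have h5 : q ^ Fintype.card ι = q ^ (Fintype.card ι - d) * q ^ d := by
    rw [← pow_add]; congr 1; omega
  rw [h5] at h3
  have h6 : q ^ (Fintype.card ι - d) * q ^ d ≤
      q ^ (Fintype.card ι - d) * (F.card * 2 ^ Fintype.card ι) := by
    refine h3.trans (le_of_eq ?_); ring
  exact Nat.le_of_mul_le_mul_left h6 (by positivity)

end Pool.Agent.H49.KNN
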