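import Mathlib

/-!
# Three-dimensional grid drawings (definitions)

Straight-line drawings of finite simple graphs with vertices at integer points of space,
following the setting of `MP_d5c87a_co`.
-/

namespace Pool.Agent.H49.KNN

/-- The real point with the given integer coordinates. -/
def toReal (v : Fin 3 → ℤ) : Fin 3 → ℝ := fun i => (v i : ℝ)

/-- `f` is a three-dimensional grid drawing of the simple graph `G`: the vertices are placed
injectively at points of `ℤ³`, every edge is the closed segment joining the images of its ends,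
no edge contains the image of a vertex other than its two ends, and two distinct edges meet at
most in (the image of) a common end. -/
structure IsGridDrawing {V : Type*} (G : SimpleGraph V) (f : V → Fin 3 → ℤ) : Prop where
  /-- the vertices are placed injectively -/
  injective : Function.Injective f
  /-- no edge segment contains the image of a vertex other than its own two ends -/
  vertex_not_mem : ∀ u v w : V, G.Adj u v → w ≠ u → w ≠ v →
    toReal (f w) ∉ segment ℝ (toReal (f u)) (toReal (f v))
  /-- two distinct edges meet at most in a common end -/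
  edges_meet : ∀ u v u' v' : V, G.Adj u v → G.Adj u' v' → s(u, v) ≠ s(u', v') →
    ∀ q : Fin 3 → ℝ, q ∈ segment ℝ (toReal (f u)) (toReal (f v)) →
      q ∈ segment ℝ (toReal (f u')) (toReal (f v')) →
      ∃ w : V, (w = u ∨ w = v) ∧ (w = u' ∨ w = v') ∧ q = toReal (f w)

/-- `G` can be drawn in an `X × Y × Z` grid. -/
def CanBeDrawn {V : Type*} (G : SimpleGraph V) (X Y Z : ℕ) : Prop :=
  ∃ f : V → Fin 3 → ℤ, IsGridDrawing G f ∧
    ∀ v : V, (1 ≤ f v 0 ∧ f v 0 ≤ (X : ℤ)) ∧ (1 ≤ f v 1 ∧ f v 1 ≤ (Y : ℤ)) ∧
      (1 ≤ f v 2 ∧ f v 2 ≤ (Z : ℤ))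

/-- The complete bipartite graph `K_{n,n}`. -/
abbrev Knn (n : ℕ) : SimpleGraph (Fin n ⊕ Fin n) := completeBipartiteGraph (Fin n) (Fin n)

/-- `m(n)`: the least side length `m ≥ 1` of a cubic grid `[m]³` in which `K_{n,n}` can be
drawn. -/
noncomputable def sideLength (n : ℕ) : ℕ :=
  sInf {m : ℕ | 1 ≤ m ∧ CanBeDrawn (Knn n) m m m}

end Pool.Agent.H49.KNN
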