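import Mathlib

/-!
# The arithmetic criterion

Products of subsets of a finite family of primes, products of powers of these primes, and the
fact that the coplanarity equation has no solution for them.
-/

namespace Pool.Agent.H49.KNN

open Finset

set_option linter.unusedSectionVars false

variable {ι : Type*} [Fintype ι] [DecidableEq ι]

/-- The product of the family. -/
def qProd (pr : ι → ℕ) : ℕ := ∏ j, pr j

/-- The product of a subfamily. -/
def xProd (pr : ι → ℕ) (S : Finset ι) : ℕ := ∏ j ∈ S, pr j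

/-- The product of the powers with exponents `f`. -/
def zProd (pr : ι → ℕ) {q : ℕ} (f : ι → Fin q) : ℕ := ∏ j, pr j ^ (f j : ℕ)

theorem dvd_xProd_iff {pr : ι → ℕ} (hp : ∀ j, (pr j).Prime) (hinj : Function.Injective pr)
    (S : Finset ι) (j : ι) : pr j ∣ xProd pr S ↔ j ∈ S := by
  unfold xProd
  constructor
  · intro h
    obtain ⟨k, hk, hjk⟩ := (Prime.dvd_finsetProd_iff (hp j).prime _).mp h
    have : pr j = pr k := (Nat.prime_dvd_prime_iff_eq (hp j) (hp k)).mp hjk
    rw [hinj this]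
    exact hk
  · intro h
    exact Finset.dvd_prod_of_mem _ h

theorem dvd_qProd (pr : ι → ℕ) (j : ι) : pr j ∣ qProd pr :=
  Finset.dvd_prod_of_mem _ (Finset.mem_univ j)

theorem qProd_pos {pr : ι → ℕ} (hp : ∀ j, (pr j).Prime) : 0 < qProd pr :=
  Finset.prod_pos fun j _ => (hp j).pos

theorem xProd_pos {pr : ι → ℕ} (hp : ∀ j, (pr j).Prime) (S : Finset ι) : 0 < xProd pr S :=
  Finset.prod_pos fun j _ => (hp j).pos

theorem zProd_pos {pr : ι → ℕ} (hp : ∀ j, (pr j).Prime) {q : ℕ} (f : ι → Fin q) :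
    0 < zProd pr f :=
  Finset.prod_pos fun j _ => pow_pos (hp j).pos _

theorem xProd_lt {pr : ι → ℕ} (hp : ∀ j, (pr j).Prime) {S : Finset ι} {j : ι} (hj : j ∉ S) :
    xProd pr S < qProd pr := by
  have h1 : xProd pr S * pr j ≤ qProd pr := by
    unfold xProd qProd
    rw [mul_comm, ← Finset.prod_insert hj]
    exact Finset.prod_le_prod_of_subset_of_one_le' (Finset.subset_univ _)
      (fun k _ _ => (hp k).one_lt.le)
  have h2 : xProd pr S * 1 < xProd pr S * pr j :=
    Nat.mul_lt_mul_of_pos_left (hp j).one_lt (xProd_pos hp S)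
  omega

theorem zProd_le {pr : ι → ℕ} (hp : ∀ j, (pr j).Prime) {q : ℕ} (f : ι → Fin q) :
    zProd pr f ≤ qProd pr ^ (q - 1) := by
  unfold zProd qProd
  rw [← Finset.prod_pow]
  refine Finset.prod_le_prod' fun j _ => ?_
  exact Nat.pow_le_pow_right (hp j).pos (by have := (f j).isLt; omega)

/-- Splitting off one prime. -/
theorem zProd_split {pr : ι → ℕ} (hp : ∀ j, (pr j).Prime) (hinj : Function.Injective pr)
    {q : ℕ} (f : ι → Fin q) (j : ι) :
    ∃ u : ℕ, zProd pr f = pr j ^ (f j : ℕ) * u ∧ ¬ pr j ∣ u := by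
  refine ⟨∏ k ∈ Finset.univ.erase j, pr k ^ (f k : ℕ), ?_, ?_⟩
  · unfold zProd
    exact (Finset.mul_prod_erase _ (fun k => pr k ^ (f k : ℕ)) (Finset.mem_univ j)).symm
  · intro h
    obtain ⟨k, hk, hjk⟩ := (Prime.dvd_finsetProd_iff (hp j).prime _).mp h
    have h1 : pr j ∣ pr k := (hp j).dvd_of_dvd_pow hjk
    have : pr j = pr k := (Nat.prime_dvd_prime_iff_eq (hp j) (hp k)).mp h1
    exact (Finset.mem_erase.mp hk).1 (hinj this).symm

/-- The local obstruction at one prime, ordered exponents. -/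
theorem local_ne {p : ℤ} (hp : Prime p) {x y x' y' i i' L z z' u w : ℤ} {h h' : ℕ}
    (hh : h < h') (hz : z = p ^ h * u) (hz' : z' = p ^ h' * w) (hu : ¬ p ∣ u) (hi : p ∣ i)
    (hi' : p ∣ i') (hxy : ¬ p ∣ x * y' - x' * y) :
    (z - z') * (x * y' - x' * y) ≠ (L * (y' - y) - (x' - x)) * (z * i' - z' * i) := by
  intro heq
  obtain ⟨k, rfl⟩ : ∃ k, h' = h + 1 + k := ⟨h' - (h + 1), by omega⟩
  have hpow : p ^ h ≠ 0 := pow_ne_zero _ hp.ne_zero
  have h1 : (u - p * (p ^ k * w)) * (x * y' - x' * y) =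
      (L * (y' - y) - (x' - x)) * (u * i' - p * (p ^ k * w) * i) := by
    apply mul_left_cancel₀ hpow
    have e1 : z = p ^ h * u := hz
    have e2 : z' = p ^ h * (p * (p ^ k * w)) := by rw [hz']; ring
    rw [e1, e2] at heq
    linear_combination heq
  have h2 : p ∣ (u - p * (p ^ k * w)) * (x * y' - x' * y) := by
    rw [h1]
    apply Dvd.dvd.mul_left
    exact dvd_sub (Dvd.dvd.mul_left hi' _) (Dvd.dvd.mul_left hi _)
  rcases hp.dvd_or_dvd h2 with h3 | h3
  · apply hu
    have := dvd_add h3 (Dvd.intro (p ^ k * w) rfl : p ∣ p * (p ^ k * w))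
    simpa using this
  · exact hxy h3

/-- The local obstruction at one prime. -/
theorem local_ne' {p : ℤ} (hp : Prime p) {x y x' y' i i' L z z' u w : ℤ} {h h' : ℕ}
    (hh : h ≠ h') (hz : z = p ^ h * u) (hz' : z' = p ^ h' * w) (hu : ¬ p ∣ u) (hw : ¬ p ∣ w)
    (hi : p ∣ i) (hi' : p ∣ i') (hxy : ¬ p ∣ x * y' - x' * y) :
    (z - z') * (x * y' - x' * y) ≠ (L * (y' - y) - (x' - x)) * (z * i' - z' * i) := by
  rcases lt_or_gt_of_ne hh with h1 | h1
  · exact local_ne hp h1 hz hz' hu hi hi' hxy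
  · intro heq
    apply local_ne (L := L) hp h1 hz' hz hw hi' hi hxy
    linear_combination (-1 : ℤ) * heq

/-- **The arithmetic criterion.** -/
theorem no_solution {pr : ι → ℕ} (hp : ∀ j, (pr j).Prime) (hinj : Function.Injective pr)
    {q : ℕ} {S S' : Finset ι} {f f' : ι → Fin q} {y y' i i' : ℤ}
    (hS : ∃ j, j ∉ S) (hS' : ∃ j, j ∉ S')
    (hy : ∀ j, ¬ (pr j : ℤ) ∣ y) (hy' : ∀ j, ¬ (pr j : ℤ) ∣ y')
    (hi : (qProd pr : ℤ) ∣ i) (hi' : (qProd pr : ℤ) ∣ i')
    (hff : f ≠ f' → S ≠ S' → ∃ j, f j ≠ f' j ∧ ¬ (j ∈ S ↔ j ∈ S'))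
    (hffS : f ≠ f' → ∃ j, f j ≠ f' j ∧ j ∉ S)
    (hA : ¬ (S = S' ∧ y = y')) (hB : ¬ (i = i' ∧ f = f')) :
    ((zProd pr f : ℤ) - zProd pr f') * (xProd pr S * y' - xProd pr S' * y) ≠
      ((qProd pr : ℤ) * (y' - y) - (xProd pr S' - xProd pr S)) *
        (zProd pr f * i' - zProd pr f' * i) := by
  have hpi : ∀ j, Prime ((pr j : ℕ) : ℤ) := fun j => Nat.prime_iff_prime_int.mp (hp j)
  have hdi : ∀ j, ((pr j : ℕ) : ℤ) ∣ i := fun j =>
    dvd_trans (by exact_mod_cast dvd_qProd pr j) hi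
  have hdi' : ∀ j, ((pr j : ℕ) : ℤ) ∣ i' := fun j =>
    dvd_trans (by exact_mod_cast dvd_qProd pr j) hi'
  have hxlt : (xProd pr S : ℤ) < qProd pr := by
    obtain ⟨j, hj⟩ := hS; exact_mod_cast xProd_lt hp hj
  have hxlt' : (xProd pr S' : ℤ) < qProd pr := by
    obtain ⟨j, hj⟩ := hS'; exact_mod_cast xProd_lt hp hj
  have hxpos : (0 : ℤ) < xProd pr S := by exact_mod_cast xProd_pos hp S
  have hxpos' : (0 : ℤ) < xProd pr S' := by exact_mod_cast xProd_pos hp S'
  have hxdvd : ∀ j, ((pr j : ℕ) : ℤ) ∣ (xProd pr S : ℤ) ↔ j ∈ S := fun j => by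
    rw [Int.natCast_dvd_natCast]; exact dvd_xProd_iff hp hinj S j
  have hxdvd' : ∀ j, ((pr j : ℕ) : ℤ) ∣ (xProd pr S' : ℤ) ↔ j ∈ S' := fun j => by
    rw [Int.natCast_dvd_natCast]; exact dvd_xProd_iff hp hinj S' j
  have hsplit : ∀ (g : ι → Fin q) (j : ι), ∃ u : ℤ,
      (zProd pr g : ℤ) = (pr j : ℤ) ^ (g j : ℕ) * u ∧ ¬ (pr j : ℤ) ∣ u := by
    intro g j
    obtain ⟨u, hu1, hu2⟩ := zProd_split hp hinj g j
    refine ⟨(u : ℤ), ?_, ?_⟩
    · rw [hu1]; push_cast; ring
    · rwa [Int.natCast_dvd_natCast]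
  by_cases hf : f = f'
  · -- same row
    subst hf
    intro heq
    have hii : i ≠ i' := fun h => hB ⟨h, rfl⟩
    have hz : (zProd pr f : ℤ) ≠ 0 := by exact_mod_cast (zProd_pos hp f).ne'
    have h1 : ((qProd pr : ℤ) * (y' - y) - (xProd pr S' - xProd pr S)) *
        (zProd pr f * (i' - i)) = 0 := by linear_combination (-1 : ℤ) * heq
    have h2 : (qProd pr : ℤ) * (y' - y) - (xProd pr S' - xProd pr S) = 0 := by
      rcases mul_eq_zero.mp h1 with h | h
      · exact h
      · rcases mul_eq_zero.mp h with h | h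
        · exact absurd h hz
        · exact absurd (by linarith) hii
    have h3 : y' = y := by
      by_contra hne
      rcases lt_or_gt_of_ne hne with h | h
      · have h4 : y' - y ≤ -1 := by omega
        have h5 : (qProd pr : ℤ) * (y' - y) ≤ (qProd pr : ℤ) * (-1) :=
          mul_le_mul_of_nonneg_left h4 (by positivity)
        linarith
      · have h4 : 1 ≤ y' - y := by omega
        have h5 : (qProd pr : ℤ) * 1 ≤ (qProd pr : ℤ) * (y' - y) :=
          mul_le_mul_of_nonneg_left h4 (by positivity)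
        linarith
    subst h3
    have h4 : (xProd pr S' : ℤ) = xProd pr S := by linarith [h2, sub_self y']
    apply hA
    refine ⟨?_, rfl⟩
    ext j
    rw [← hxdvd j, ← hxdvd' j, h4]
  · by_cases hSS : S = S'
    · -- same column
      subst hSS
      obtain ⟨j, hj, hjS⟩ := hffS hf
      obtain ⟨u, hu, hu'⟩ := hsplit f j
      obtain ⟨w, hw, hw'⟩ := hsplit f' j
      intro heq
      have hyy : y' - y ≠ 0 := fun h => hA ⟨rfl, by linarith⟩
      have hne : (f j : ℕ) ≠ (f' j : ℕ) := fun h => hj (Fin.ext h)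
      -- reduce to the previous computation with y = 0, y' = 1
      have h1 : ((zProd pr f : ℤ) - zProd pr f') * (xProd pr S * 1 - xProd pr S * 0) =
          ((qProd pr : ℤ) * (1 - 0) - (xProd pr S - xProd pr S)) *
            (zProd pr f * i' - zProd pr f' * i) := by
        apply mul_left_cancel₀ hyy
        linear_combination heq
      refine local_ne' (L := (qProd pr : ℤ)) (hpi j) hne hu hw hu' hw' (hdi j) (hdi' j) ?_ h1
      intro h
      exact hjS ((hxdvd j).mp (by simpa using h))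
    · -- different columns
      obtain ⟨j, hj, hjS⟩ := hff hf hSS
      obtain ⟨u, hu, hu'⟩ := hsplit f j
      obtain ⟨w, hw, hw'⟩ := hsplit f' j
      have hne : (f j : ℕ) ≠ (f' j : ℕ) := fun h => hj (Fin.ext h)
      refine local_ne' (L := (qProd pr : ℤ)) (hpi j) hne hu hw hu' hw' (hdi j) (hdi' j) ?_
      intro h
      by_cases hjm : j ∈ S
      · have hjm' : j ∉ S' := fun h' => hjS ⟨fun _ => h', fun _ => hjm⟩
        have h1 : ((pr j : ℕ) : ℤ) ∣ (xProd pr S' : ℤ) * y := by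
          have h2 : ((pr j : ℕ) : ℤ) ∣ (xProd pr S : ℤ) * y' :=
            Dvd.dvd.mul_right ((hxdvd j).mpr hjm) _
          have := dvd_sub h2 h
          simpa using this
        rcases (hpi j).dvd_or_dvd h1 with h3 | h3
        · exact hjm' ((hxdvd' j).mp h3)
        · exact hy j h3
      · have hjm' : j ∈ S' := by
          by_contra h'
          exact hjS ⟨fun h'' => absurd h'' hjm, fun h'' => absurd h'' h'⟩
        have h1 : ((pr j : ℕ) : ℤ) ∣ (xProd pr S : ℤ) * y' := by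
          have h2 : ((pr j : ℕ) : ℤ) ∣ (xProd pr S' : ℤ) * y :=
            Dvd.dvd.mul_right ((hxdvd' j).mpr hjm') _
          have := dvd_add h h2
          simpa using this
        rcases (hpi j).dvd_or_dvd h1 with h3 | h3
        · exact hjm ((hxdvd j).mp h3)
        · exact hy' j h3

end Pool.Agent.H49.KNN
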