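import Pool.Agent.H49.KNN.Geo
import Pool.Agent.H49.KNN.NT

/-!
# The drawing attached to two codes
-/

namespace Pool.Agent.H49.KNN

open Finset

set_option linter.unusedSectionVars false

variable {ι : Type*} [Fintype ι] [DecidableEq ι]

/-- Residues prime to `Q`. -/
abbrev UnitsBelow (Q : ℕ) : Type := {r : ℕ // r ∈ (range Q).filter (fun a => Q.Coprime a)}

/-- Index type of the first class. -/
abbrev IdxA (C : Finset (Finset ι)) (Q k : ℕ) : Type _ := C × Fin (Q * k) × UnitsBelow Q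

/-- Index type of the second class. -/
abbrev IdxB {q : ℕ} (F : Finset (ι → Fin q)) (k : ℕ) : Type _ := F × Fin k

theorem card_idxA (C : Finset (Finset ι)) (Q k : ℕ) :
    Fintype.card (IdxA C Q k) = C.card * ((Q * k) * Q.totient) := by
  rw [Fintype.card_prod, Fintype.card_prod, Fintype.card_fin, Fintype.card_coe, Fintype.card_coe]
  rfl

theorem card_idxB {q : ℕ} (F : Finset (ι → Fin q)) (k : ℕ) :
    Fintype.card (IdxB F k) = F.card * k := by
  rw [Fintype.card_prod, Fintype.card_fin, Fintype.card_coe]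

/-- **The finite construction.** -/
theorem canBeDrawn_of_codes {pr : ι → ℕ} (hp : ∀ j, (pr j).Prime)
    (hinj : Function.Injective pr) {q : ℕ} (hq : 1 ≤ q)
    (C : Finset (Finset ι)) (F : Finset (ι → Fin q))
    (hC : ∀ S ∈ C, ∃ j, j ∉ S)
    (hCF : ∀ S ∈ C, ∀ S' ∈ C, S ≠ S' → ∀ f ∈ F, ∀ f' ∈ F, f ≠ f' →
      ∃ j, f j ≠ f' j ∧ ¬ (j ∈ S ↔ j ∈ S'))
    (hCF' : ∀ S ∈ C, ∀ f ∈ F, ∀ f' ∈ F, f ≠ f' → ∃ j, f j ≠ f' j ∧ j ∉ S)
    {n k m : ℕ}
    (hnA : n ≤ C.card * ((qProd pr * k) * (qProd pr).totient))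
    (hnB : n ≤ F.card * k)
    (hm1 : qProd pr ^ 2 * k ≤ m) (hm2 : qProd pr ^ q ≤ m) :
    CanBeDrawn (Knn n) m m m := by
  classical
  set Q := qProd pr with hQ
  have hQpos : 0 < Q := qProd_pos hp
  -- embeddings of the vertex classes
  obtain ⟨eA⟩ : Nonempty (Fin n ↪ IdxA C Q k) := by
    apply Function.Embedding.nonempty_of_card_le
    rw [Fintype.card_fin, card_idxA]; exact hnA
  obtain ⟨eB⟩ : Nonempty (Fin n ↪ IdxB F k) := by
    apply Function.Embedding.nonempty_of_card_le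
    rw [Fintype.card_fin, card_idxB]; exact hnB
  let Sx : Fin n → Finset ι := fun a => ((eA a).1 : Finset ι)
  let ya : Fin n → ℕ := fun a => ((eA a).2.1 : ℕ) * Q + ((eA a).2.2 : ℕ)
  let tb : Fin n → ℕ := fun b => ((eB b).2 : ℕ) + 1
  let fb : Fin n → (ι → Fin q) := fun b => ((eB b).1 : ι → Fin q)
  have hSx : ∀ a, Sx a ∈ C := fun a => (eA a).1.2
  have hfb : ∀ b, fb b ∈ F := fun b => (eB b).1.2
  have hr : ∀ a, ((eA a).2.2 : ℕ) < Q ∧ Q.Coprime ((eA a).2.2 : ℕ) := fun a => by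
    have := mem_filter.mp (eA a).2.2.2
    exact ⟨mem_range.mp this.1, this.2⟩
  have hj : ∀ a, ((eA a).2.1 : ℕ) < Q * k := fun a => (eA a).2.1.2
  have hQ2 : ∀ _a : Fin n, 2 ≤ Q := fun a => by
    obtain ⟨j, -⟩ := hC (Sx a) (hSx a)
    exact (hp j).two_le.trans (Nat.le_of_dvd hQpos (dvd_qProd pr j))
  have hyunit : ∀ a j, ¬ pr j ∣ ya a := by
    intro a j h
    have h1 : pr j ∣ Q := dvd_qProd pr j
    have h2 : pr j ∣ ((eA a).2.2 : ℕ) := by
      have h3 : pr j ∣ ((eA a).2.1 : ℕ) * Q := Dvd.dvd.mul_left h1 _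
      exact (Nat.dvd_add_right h3).mp h
    have h4 : pr j ∣ Nat.gcd Q ((eA a).2.2 : ℕ) := Nat.dvd_gcd h1 h2
    rw [(hr a).2] at h4
    exact (hp j).one_lt.ne' (Nat.dvd_one.mp h4)
  have hy1 : ∀ a, 1 ≤ ya a := by
    intro a
    by_contra h
    have h0 : ya a = 0 := by omega
    obtain ⟨j, -⟩ := hC (Sx a) (hSx a)
    exact hyunit a j (by rw [h0]; exact dvd_zero _)
  have hy2 : ∀ a, ya a < Q ^ 2 * k := by
    intro a
    have h1 : ((eA a).2.1 : ℕ) + 1 ≤ Q * k := hj a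
    have h2 := (hr a).1
    calc ya a = ((eA a).2.1 : ℕ) * Q + ((eA a).2.2 : ℕ) := rfl
      _ < ((eA a).2.1 : ℕ) * Q + Q := by omega
      _ = (((eA a).2.1 : ℕ) + 1) * Q := by ring
      _ ≤ (Q * k) * Q := Nat.mul_le_mul_right _ h1
      _ = Q ^ 2 * k := by ring
  have ht : ∀ b, Q * (Q * tb b) ≤ m := by
    intro b
    have h1 : tb b ≤ k := (eB b).2.2
    calc Q * (Q * tb b) = Q ^ 2 * tb b := by ring
      _ ≤ Q ^ 2 * k := Nat.mul_le_mul_left _ h1
      _ ≤ m := hm1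
  have hkpos : ∀ _b : Fin n, 1 ≤ k := fun b => by
    have := (eB b).2.2
    omega
  have hQm : ∀ _b : Fin n, Q ≤ m := fun b => by
    have h1 := hkpos b
    calc Q = Q * 1 := (mul_one Q).symm
      _ ≤ Q * (Q * k) := Nat.mul_le_mul_left _ (Nat.mul_pos hQpos h1)
      _ = Q ^ 2 * k := by ring
      _ ≤ m := hm1
  have hz : ∀ b, zProd pr (fb b) + 1 ≤ m := by
    intro b
    have h1 := zProd_le hp (fb b)
    have h2 := hQ2 b
    have h3 : Q ^ (q - 1) + 1 ≤ Q ^ q := by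
      have h4 : Q ^ q = Q ^ (q - 1) * Q := by
        rw [← pow_succ]; congr 1; omega
      have h5 : 1 ≤ Q ^ (q - 1) := Nat.one_le_pow _ _ hQpos
      rw [h4]
      calc Q ^ (q - 1) + 1 ≤ Q ^ (q - 1) * 2 := by omega
        _ ≤ Q ^ (q - 1) * Q := Nat.mul_le_mul_left _ h2
    rw [← hQ] at h1
    omega
  -- the placement
  let x : Fin n → ℤ := fun a => (xProd pr (Sx a) : ℤ)
  let y : Fin n → ℤ := fun a => (ya a : ℤ)
  let i : Fin n → ℤ := fun b => ((Q * tb b : ℕ) : ℤ)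
  let z : Fin n → ℤ := fun b => (zProd pr (fb b) : ℤ)
  have hxlt : ∀ a, xProd pr (Sx a) < Q := fun a => by
    obtain ⟨j, hj⟩ := hC (Sx a) (hSx a)
    exact xProd_lt hp hj
  have hya_inj : ∀ a a', Sx a = Sx a' → ya a = ya a' → a = a' := by
    intro a a' h1 h2
    apply eA.injective
    have h3 : ((eA a).2.1 : ℕ) * Q + ((eA a).2.2 : ℕ) =
      ((eA a').2.1 : ℕ) * Q + ((eA a').2.2 : ℕ) := h2
    have h4 : ((eA a).2.2 : ℕ) = ((eA a').2.2 : ℕ) := by
      have := congrArg (fun u => u % Q) h3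
      simpa [Nat.add_mod, Nat.mod_eq_of_lt (hr a).1, Nat.mod_eq_of_lt (hr a').1] using this
    have h5 : ((eA a).2.1 : ℕ) = ((eA a').2.1 : ℕ) := by
      rw [h4] at h3
      exact Nat.eq_of_mul_eq_mul_right hQpos (by omega)
    refine Prod.ext ?_ (Prod.ext ?_ ?_)
    · exact Subtype.ext h1
    · exact Fin.ext h5
    · exact Subtype.ext h4
  have htb_inj : ∀ b b', tb b = tb b' → fb b = fb b' → b = b' := by
    intro b b' h1 h2
    apply eB.injective
    refine Prod.ext ?_ ?_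
    · exact Subtype.ext h2
    · apply Fin.ext
      have h3 : ((eB b).2 : ℕ) + 1 = ((eB b').2 : ℕ) + 1 := h1
      omega
  refine ⟨place (Q : ℤ) x y i z, ?_, ?_⟩
  · refine isGridDrawing_place (Q : ℤ) x y i z ?_ ?_ ?_ ?_ ?_
    · intro a
      have h1 : (xProd pr (Sx a) : ℤ) < Q := by exact_mod_cast hxlt a
      have h2 : (1 : ℤ) ≤ ya a := by exact_mod_cast hy1 a
      have h3 : (Q : ℤ) * 1 ≤ (Q : ℤ) * ya a := mul_le_mul_of_nonneg_left h2 (by positivity)
      show 0 < (Q : ℤ) * (ya a : ℤ) - (xProd pr (Sx a) : ℤ)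
      linarith
    · intro b
      show (0 : ℤ) < (zProd pr (fb b) : ℤ)
      exact_mod_cast zProd_pos hp _
    · intro a a' hx hy'
      have hx' : xProd pr (Sx a) = xProd pr (Sx a') := by
        have : (xProd pr (Sx a) : ℤ) = (xProd pr (Sx a') : ℤ) := hx
        exact_mod_cast this
      have hSS : Sx a = Sx a' := by
        ext j
        rw [← dvd_xProd_iff hp hinj, ← dvd_xProd_iff hp hinj, hx']
      have hyy : ya a = ya a' := by
        have : (ya a : ℤ) = (ya a' : ℤ) := hy'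
        exact_mod_cast this
      exact hya_inj a a' hSS hyy
    · intro b b' hi' hz'
      have h1 : tb b = tb b' := by
        have : ((Q * tb b : ℕ) : ℤ) = ((Q * tb b' : ℕ) : ℤ) := hi'
        have h2 : Q * tb b = Q * tb b' := by exact_mod_cast this
        exact Nat.eq_of_mul_eq_mul_left hQpos h2
      have h2 : fb b = fb b' := by
        by_contra hne
        obtain ⟨j, hj1, -⟩ := hCF' (Sx b) (hSx b) (fb b) (hfb b) (fb b') (hfb b') hne
        have hzz : zProd pr (fb b) = zProd pr (fb b') := by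
          have : (zProd pr (fb b) : ℤ) = (zProd pr (fb b') : ℤ) := hz'
          exact_mod_cast this
        obtain ⟨u, hu, hu'⟩ := zProd_split hp hinj (fb b) j
        obtain ⟨w, hw, hw'⟩ := zProd_split hp hinj (fb b') j
        have key : ∀ {c c' u w : ℕ}, c < c' → pr j ^ c * u = pr j ^ c' * w → ¬ pr j ∣ u →
            False := by
          intro c c' u w hcc h hu
          obtain ⟨e, rfl⟩ : ∃ e, c' = c + (e + 1) := ⟨c' - c - 1, by omega⟩
          rw [pow_add, mul_assoc] at h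
          have h3 := Nat.eq_of_mul_eq_mul_left (pow_pos (hp j).pos c) h
          apply hu
          rw [h3, pow_succ]
          exact Dvd.dvd.mul_right (Dvd.dvd.mul_left (dvd_refl _) _) _
        have hne' : ((fb b) j : ℕ) ≠ ((fb b') j : ℕ) := fun h => hj1 (Fin.ext h)
        rw [hu, hw] at hzz
        rcases lt_or_gt_of_ne hne' with h | h
        · exact key h hzz hu'
        · exact key h hzz.symm hw'
      exact htb_inj b b' h1 h2
    · intro a a' b b' haa hbb
      refine no_solution hp hinj (S := Sx a) (S' := Sx a') (f := fb b) (f' := fb b')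
        (hC _ (hSx a)) (hC _ (hSx a')) ?_ ?_ ?_ ?_ ?_ ?_ ?_ ?_
      · intro j h
        have : (pr j : ℤ) ∣ (ya a : ℤ) := h
        exact hyunit a j (by exact_mod_cast this)
      · intro j h
        have : (pr j : ℤ) ∣ (ya a' : ℤ) := h
        exact hyunit a' j (by exact_mod_cast this)
      · show (qProd pr : ℤ) ∣ ((Q * tb b : ℕ) : ℤ)
        rw [← hQ]
        exact_mod_cast Dvd.intro _ rfl
      · show (qProd pr : ℤ) ∣ ((Q * tb b' : ℕ) : ℤ)
        rw [← hQ]
        exact_mod_cast Dvd.intro _ rfl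
      · intro hff hSS
        exact hCF _ (hSx a) _ (hSx a') hSS _ (hfb b) _ (hfb b') hff
      · intro hff
        exact hCF' _ (hSx a) _ (hfb b) _ (hfb b') hff
      · rintro ⟨h1, h2⟩
        have h3 : ya a = ya a' := by
          have : (ya a : ℤ) = (ya a' : ℤ) := h2
          exact_mod_cast this
        exact haa (hya_inj a a' h1 h3)
      · rintro ⟨h1, h2⟩
        have h3 : tb b = tb b' := by
          have : ((Q * tb b : ℕ) : ℤ) = ((Q * tb b' : ℕ) : ℤ) := h1
          have h4 : Q * tb b = Q * tb b' := by exact_mod_cast this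
          exact Nat.eq_of_mul_eq_mul_left hQpos h4
        exact hbb (htb_inj b b' h3 h2)
  · intro v
    rcases v with a | b
    · have hx1 : (1 : ℤ) ≤ (xProd pr (Sx a) : ℤ) := by exact_mod_cast xProd_pos hp (Sx a)
      have hx2 : (xProd pr (Sx a) : ℤ) ≤ (m : ℤ) := by
        exact_mod_cast ((hxlt a).le.trans (hQm a))
      have hy1' : (1 : ℤ) ≤ (ya a : ℤ) := by exact_mod_cast hy1 a
      have hy2' : (ya a : ℤ) ≤ (m : ℤ) := by exact_mod_cast ((hy2 a).le.trans hm1)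
      have hm : (1 : ℤ) ≤ (m : ℤ) := by linarith
      refine ⟨⟨?_, ?_⟩, ⟨?_, ?_⟩, ⟨?_, ?_⟩⟩
      · simpa [place, aPt, x] using hx1
      · simpa [place, aPt, x] using hx2
      · simpa [place, aPt, y] using hy1'
      · simpa [place, aPt, y] using hy2'
      · simp [place, aPt]
      · simpa [place, aPt] using hm
    · have hi0 : 1 ≤ Q * tb b := Nat.mul_pos hQpos (Nat.succ_pos _)
      have hi1 : (1 : ℤ) ≤ ((Q * tb b : ℕ) : ℤ) := by exact_mod_cast hi0
      have hi2 : ((Q * tb b : ℕ) : ℤ) ≤ (m : ℤ) := by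
        have h1 := ht b
        have h2 : Q * tb b ≤ Q * (Q * tb b) := Nat.le_mul_of_pos_left _ hQpos
        exact_mod_cast h2.trans h1
      have hLi1 : (1 : ℤ) ≤ (Q : ℤ) * ((Q * tb b : ℕ) : ℤ) := by
        have : 1 ≤ Q * (Q * tb b) := Nat.mul_pos hQpos hi0
        exact_mod_cast this
      have hLi2 : (Q : ℤ) * ((Q * tb b : ℕ) : ℤ) ≤ (m : ℤ) := by exact_mod_cast ht b
      have hz1 : (1 : ℤ) ≤ (zProd pr (fb b) : ℤ) + 1 := by
        have : (0 : ℤ) ≤ (zProd pr (fb b) : ℤ) := Int.natCast_nonneg _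
        linarith
      have hz2 : (zProd pr (fb b) : ℤ) + 1 ≤ (m : ℤ) := by exact_mod_cast hz b
      refine ⟨⟨?_, ?_⟩, ⟨?_, ?_⟩, ⟨?_, ?_⟩⟩
      · show (1 : ℤ) ≤ (Q : ℤ) * ((Q * tb b : ℕ) : ℤ)
        exact hLi1
      · show (Q : ℤ) * ((Q * tb b : ℕ) : ℤ) ≤ (m : ℤ)
        exact hLi2
      · show (1 : ℤ) ≤ ((Q * tb b : ℕ) : ℤ)
        exact hi1
      · show ((Q * tb b : ℕ) : ℤ) ≤ (m : ℤ)
        exact hi2
      · show (1 : ℤ) ≤ (zProd pr (fb b) : ℤ) + 1
        exact hz1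
      · show (zProd pr (fb b) : ℤ) + 1 ≤ (m : ℤ)
        exact hz2

end Pool.Agent.H49.KNN
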