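import Pool.Agent.H49.KNN.Defs

/-!
# The geometric criterion

The points `(x, y, 1)` of the first class and the points `(L i, i, z + 1)` of the second class
give a drawing as soon as a polynomial equation has no solution.
-/

namespace Pool.Agent.H49.KNN

/-- The basic algebraic consequence of a crossing. -/
theorem cross_eq {L x y x' y' i z i' z' s t : ℝ}
    (hκ : 0 < L * y - x) (hκ' : 0 < L * y' - x') (hz : 0 < z) (hz' : 0 < z')
    (h1 : (1 - s) * x + s * (L * i) = (1 - t) * x' + t * (L * i'))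
    (h2 : (1 - s) * y + s * i = (1 - t) * y' + t * i')
    (h3 : s * z = t * z') :
    (z - z') * (x * y' - x' * y) = (L * (y' - y) - (x' - x)) * (z * i' - z' * i) := by
  set κ := L * y - x with hκd
  set κ' := L * y' - x' with hκd'
  have hK : (1 - s) * κ = (1 - t) * κ' := by
    rw [hκd, hκd']; linear_combination L * h2 - h1
  have hI : z' * (1 - s) * (κ' * y - κ * y') = κ' * s * (z * i' - z' * i) := by
    have h0 : κ * z * (z' * (1 - s) * (κ' * y - κ * y') - κ' * s * (z * i' - z' * i)) = 0 := by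
      linear_combination (κ * κ' * z * z') * h2 - (z * z' * κ * y') * hK
        - (κ * κ' * z * i') * h3
    have h00 : κ * z ≠ 0 := by positivity
    have := (mul_eq_zero.mp h0).resolve_left h00
    linarith
  have hA : s * (κ * z' - κ' * z) = z' * (κ - κ') := by
    linear_combination (-z') * hK - κ' * h3
  have hB : (1 - s) * (κ * z' - κ' * z) = κ' * (z' - z) := by
    linear_combination (-1 : ℝ) * hA
  have hE : κ' * z' * ((z' - z) * (κ' * y - κ * y') - (κ - κ') * (z * i' - z' * i)) = 0 := by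
    linear_combination (κ * z' - κ' * z) * hI - z' * (κ' * y - κ * y') * hB
      + κ' * (z * i' - z' * i) * hA
  have h00 : κ' * z' ≠ 0 := by positivity
  have hE' := (mul_eq_zero.mp hE).resolve_left h00
  rw [hκd, hκd'] at hE'
  linear_combination (-1 : ℝ) * hE'

/-- Points of the first class. -/
def aPt (x y : ℤ) : Fin 3 → ℤ := ![x, y, 1]

/-- Points of the second class. -/
def bPt (L i z : ℤ) : Fin 3 → ℤ := ![L * i, i, z + 1]

theorem mem_seg {L x y i z : ℤ} {q : Fin 3 → ℝ}
    (h : q ∈ segment ℝ (toReal (aPt x y)) (toReal (bPt L i z))) :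
    ∃ s : ℝ, q 0 = (1 - s) * x + s * ((L : ℝ) * i) ∧ q 1 = (1 - s) * y + s * i ∧
      q 2 = 1 + s * z := by
  rw [segment_eq_image] at h
  obtain ⟨s, -, rfl⟩ := h
  refine ⟨s, ?_, ?_, ?_⟩
  · simp [toReal, aPt, bPt]
  · simp [toReal, aPt, bPt]
  · simp [toReal, aPt, bPt]
    ring

theorem eq_toReal_aPt {x y : ℤ} {q : Fin 3 → ℝ} (h0 : q 0 = x) (h1 : q 1 = y) (h2 : q 2 = 1) :
    q = toReal (aPt x y) := by
  funext j
  fin_cases j
  · simpa [toReal, aPt] using h0
  · simpa [toReal, aPt] using h1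
  · simpa [toReal, aPt] using h2

theorem eq_toReal_bPt {L i z : ℤ} {q : Fin 3 → ℝ} (h0 : q 0 = (L : ℝ) * i) (h1 : q 1 = i)
    (h2 : q 2 = 1 + z) : q = toReal (bPt L i z) := by
  funext j
  fin_cases j
  · simpa [toReal, bPt] using h0
  · simpa [toReal, bPt] using h1
  · have : q 2 = (z : ℝ) + 1 := by rw [h2]; ring
    simpa [toReal, bPt] using this

/-- Two edges, in the situation of the criterion. -/
theorem edges_core {L x y x' y' i z i' z' : ℤ} {q : Fin 3 → ℝ}
    (hκ : 0 < L * y - x) (hκ' : 0 < L * y' - x') (hz : 0 < z) (hz' : 0 < z')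
    (hq : q ∈ segment ℝ (toReal (aPt x y)) (toReal (bPt L i z)))
    (hq' : q ∈ segment ℝ (toReal (aPt x' y')) (toReal (bPt L i' z')))
    (hP : ¬ (x = x' ∧ y = y') → ¬ (i = i' ∧ z = z') →
      (z - z') * (x * y' - x' * y) ≠ (L * (y' - y) - (x' - x)) * (z * i' - z' * i))
    (hne : ¬ ((x = x' ∧ y = y') ∧ (i = i' ∧ z = z'))) :
    ((x = x' ∧ y = y') ∧ q = toReal (aPt x y)) ∨ ((i = i' ∧ z = z') ∧ q = toReal (bPt L i z)) := by
  obtain ⟨s, h0, h1, h2⟩ := mem_seg hq
  obtain ⟨t, h0', h1', h2'⟩ := mem_seg hq'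
  have e0 : (1 - s) * (x : ℝ) + s * ((L : ℝ) * i) = (1 - t) * x' + t * ((L : ℝ) * i') := by
    rw [← h0, ← h0']
  have e1 : (1 - s) * (y : ℝ) + s * i = (1 - t) * y' + t * i' := by rw [← h1, ← h1']
  have e2 : s * (z : ℝ) = t * z' := by
    have : (1 : ℝ) + s * z = 1 + t * z' := by rw [← h2, ← h2']
    linarith
  have rκ : (0 : ℝ) < (L : ℝ) * y - x := by exact_mod_cast hκ
  have rκ' : (0 : ℝ) < (L : ℝ) * y' - x' := by exact_mod_cast hκ'
  have rz : (0 : ℝ) < (z : ℝ) := by exact_mod_cast hz
  have rz' : (0 : ℝ) < (z' : ℝ) := by exact_mod_cast hz'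
  have hK : (1 - s) * ((L : ℝ) * y - x) = (1 - t) * ((L : ℝ) * y' - x') := by
    linear_combination (L : ℝ) * e1 - e0
  by_cases hab : x = x' ∧ y = y'
  · -- common first end
    left
    refine ⟨hab, ?_⟩
    obtain ⟨rfl, rfl⟩ := hab
    have hst : s = t := by
      have : (s - t) * ((L : ℝ) * y - x) = 0 := by linear_combination (-1 : ℝ) * hK
      rcases mul_eq_zero.mp this with h | h
      · linarith
      · exact absurd h rκ.ne'
    subst hst
    have hs : s = 0 := by
      by_contra hs
      apply hne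
      refine ⟨⟨rfl, rfl⟩, ?_, ?_⟩
      · have : s * ((i : ℝ) - i') = 0 := by linear_combination e1
        rcases mul_eq_zero.mp this with h | h
        · exact absurd h hs
        · have : (i : ℝ) = i' := by linarith
          exact_mod_cast this
      · have : s * ((z : ℝ) - z') = 0 := by linear_combination e2
        rcases mul_eq_zero.mp this with h | h
        · exact absurd h hs
        · have : (z : ℝ) = z' := by linarith
          exact_mod_cast this
    subst hs
    exact eq_toReal_aPt (by rw [h0]; ring) (by rw [h1]; ring) (by rw [h2]; ring)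
  · by_cases hbb : i = i' ∧ z = z'
    · right
      refine ⟨hbb, ?_⟩
      obtain ⟨rfl, rfl⟩ := hbb
      have hst : s = t := by
        have : (s - t) * (z : ℝ) = 0 := by linear_combination e2
        rcases mul_eq_zero.mp this with h | h
        · linarith
        · exact absurd h rz.ne'
      subst hst
      have hs : 1 - s = 0 := by
        by_contra hs
        apply hab
        have hx : (1 - s) * ((x : ℝ) - x') = 0 := by linear_combination e0
        have hy : (1 - s) * ((y : ℝ) - y') = 0 := by linear_combination e1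
        refine ⟨?_, ?_⟩
        · rcases mul_eq_zero.mp hx with h | h
          · exact absurd h hs
          · have : (x : ℝ) = x' := by linarith
            exact_mod_cast this
        · rcases mul_eq_zero.mp hy with h | h
          · exact absurd h hs
          · have : (y : ℝ) = y' := by linarith
            exact_mod_cast this
      have hs1 : s = 1 := by linarith
      subst hs1
      exact eq_toReal_bPt (by rw [h0]; ring) (by rw [h1]; ring) (by rw [h2]; ring)
    · exfalso
      apply hP hab hbb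
      have := cross_eq rκ rκ' rz rz' e0 e1 e2
      exact_mod_cast this

/-- No vertex in the interior of an edge. -/
theorem vertex_core_a {L x y x' y' i z : ℤ} (hz : 0 < z)
    (hq : toReal (aPt x' y') ∈ segment ℝ (toReal (aPt x y)) (toReal (bPt L i z))) :
    x' = x ∧ y' = y := by
  obtain ⟨s, h0, h1, h2⟩ := mem_seg hq
  have rz : (0 : ℝ) < (z : ℝ) := by exact_mod_cast hz
  have h2' : (1 : ℝ) = 1 + s * z := by simpa [toReal, aPt] using h2
  have hs : s = 0 := by
    have : s * (z : ℝ) = 0 := by linarith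
    rcases mul_eq_zero.mp this with h | h
    · exact h
    · exact absurd h rz.ne'
  subst hs
  have h0' : (x' : ℝ) = x := by simpa [toReal, aPt] using h0
  have h1' : (y' : ℝ) = y := by simpa [toReal, aPt] using h1
  exact ⟨by exact_mod_cast h0', by exact_mod_cast h1'⟩

theorem vertex_core_b {L x y i z i' z' : ℤ} (hκ : 0 < L * y - x)
    (hq : toReal (bPt L i' z') ∈ segment ℝ (toReal (aPt x y)) (toReal (bPt L i z))) :
    i' = i ∧ z' = z := by
  obtain ⟨s, h0, h1, h2⟩ := mem_seg hq
  have rκ : (0 : ℝ) < (L : ℝ) * y - x := by exact_mod_cast hκ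
  have h0' : (L : ℝ) * i' = (1 - s) * x + s * ((L : ℝ) * i) := by simpa [toReal, bPt] using h0
  have h1' : (i' : ℝ) = (1 - s) * y + s * i := by simpa [toReal, bPt] using h1
  have h2' : (z' : ℝ) + 1 = 1 + s * z := by simpa [toReal, bPt] using h2
  have hs : 1 - s = 0 := by
    have : (1 - s) * ((L : ℝ) * y - x) = 0 := by linear_combination h0' - (L : ℝ) * h1'
    rcases mul_eq_zero.mp this with h | h
    · exact h
    · exact absurd h rκ.ne'
  have hs1 : s = 1 := by linarith
  subst hs1
  have e1 : (i' : ℝ) = i := by rw [h1']; ring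
  have e2 : (z' : ℝ) = z := by linarith
  exact ⟨by exact_mod_cast e1, by exact_mod_cast e2⟩

/-- The placement of the vertices of the complete bipartite graph. -/
def place {α β : Type*} (L : ℤ) (x y : α → ℤ) (i z : β → ℤ) : α ⊕ β → Fin 3 → ℤ :=
  Sum.elim (fun a => aPt (x a) (y a)) (fun b => bPt L (i b) (z b))

theorem aPt_inj {x y x' y' : ℤ} (h : aPt x y = aPt x' y') : x = x' ∧ y = y' := by
  have h0 := congrFun h 0
  have h1 := congrFun h 1
  simp [aPt] at h0 h1
  exact ⟨h0, h1⟩

theorem bPt_inj {L i z i' z' : ℤ} (h : bPt L i z = bPt L i' z') : i = i' ∧ z = z' := by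
  have h1 := congrFun h 1
  have h2 := congrFun h 2
  simp [bPt] at h1 h2
  exact ⟨h1, h2⟩

theorem aPt_ne_bPt {L x y i z : ℤ} (hz : 0 < z) : aPt x y ≠ bPt L i z := by
  intro h
  have h2 := congrFun h 2
  simp [aPt, bPt] at h2
  omega

/-- **The geometric criterion.** -/
theorem isGridDrawing_place {α β : Type*} (L : ℤ) (x y : α → ℤ) (i z : β → ℤ)
    (hκ : ∀ a, 0 < L * y a - x a) (hz : ∀ b, 0 < z b)
    (hA : ∀ a a', x a = x a' → y a = y a' → a = a')
    (hB : ∀ b b', i b = i b' → z b = z b' → b = b')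
    (hP : ∀ a a' b b', a ≠ a' → b ≠ b' →
      (z b - z b') * (x a * y a' - x a' * y a) ≠
        (L * (y a' - y a) - (x a' - x a)) * (z b * i b' - z b' * i b)) :
    IsGridDrawing (completeBipartiteGraph α β) (place L x y i z) := by
  classical
  have hinj : Function.Injective (place L x y i z) := by
    intro u v huv
    rcases u with a | b <;> rcases v with a' | b'
    · simp only [place, Sum.elim_inl] at huv
      obtain ⟨h1, h2⟩ := aPt_inj huv
      rw [hA a a' h1 h2]
    · simp only [place, Sum.elim_inl, Sum.elim_inr] at huv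
      exact absurd huv (aPt_ne_bPt (hz b'))
    · simp only [place, Sum.elim_inl, Sum.elim_inr] at huv
      exact absurd huv.symm (aPt_ne_bPt (hz b))
    · simp only [place, Sum.elim_inr] at huv
      obtain ⟨h1, h2⟩ := bPt_inj huv
      rw [hB b b' h1 h2]
  have hadj : ∀ u v : α ⊕ β, (completeBipartiteGraph α β).Adj u v →
      ∃ a b, (u = Sum.inl a ∧ v = Sum.inr b) ∨ (u = Sum.inr b ∧ v = Sum.inl a) := by
    intro u v h
    rcases u with a | b <;> rcases v with a' | b'
    · simp [completeBipartiteGraph] at h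
    · exact ⟨a, b', Or.inl ⟨rfl, rfl⟩⟩
    · exact ⟨a', b, Or.inr ⟨rfl, rfl⟩⟩
    · simp [completeBipartiteGraph] at h
  -- the two cores in terms of classes
  have hvert : ∀ (a : α) (b : β) (w : α ⊕ β), w ≠ Sum.inl a → w ≠ Sum.inr b →
      toReal (place L x y i z w) ∉
        segment ℝ (toReal (place L x y i z (Sum.inl a))) (toReal (place L x y i z (Sum.inr b))) := by
    intro a b w hwa hwb hmem
    rcases w with a' | b'
    · simp only [place, Sum.elim_inl, Sum.elim_inr] at hmem
      obtain ⟨h1, h2⟩ := vertex_core_a (hz b) hmem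
      exact hwa (by rw [hA a' a h1 h2])
    · simp only [place, Sum.elim_inl, Sum.elim_inr] at hmem
      obtain ⟨h1, h2⟩ := vertex_core_b (hκ a) hmem
      exact hwb (by rw [hB b' b h1 h2])
  have hedge : ∀ (a a' : α) (b b' : β) (q : Fin 3 → ℝ), ¬ (a = a' ∧ b = b') →
      q ∈ segment ℝ (toReal (place L x y i z (Sum.inl a))) (toReal (place L x y i z (Sum.inr b))) →
      q ∈ segment ℝ (toReal (place L x y i z (Sum.inl a')))
        (toReal (place L x y i z (Sum.inr b'))) →
      (a = a' ∧ q = toReal (place L x y i z (Sum.inl a))) ∨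
        (b = b' ∧ q = toReal (place L x y i z (Sum.inr b))) := by
    intro a a' b b' q hne hq hq'
    simp only [place, Sum.elim_inl, Sum.elim_inr] at hq hq' ⊢
    have := edges_core (hκ a) (hκ a') (hz b) (hz b') hq hq'
      (fun h1 h2 => hP a a' b b' (fun h => h1 (by rw [h]; exact ⟨rfl, rfl⟩))
        (fun h => h2 (by rw [h]; exact ⟨rfl, rfl⟩)))
      (fun h => hne ⟨hA a a' h.1.1 h.1.2, hB b b' h.2.1 h.2.2⟩)
    rcases this with ⟨h1, h2⟩ | ⟨h1, h2⟩
    · exact Or.inl ⟨hA a a' h1.1 h1.2, h2⟩
    · exact Or.inr ⟨hB b b' h1.1 h1.2, h2⟩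
  refine ⟨hinj, ?_, ?_⟩
  · intro u v w huv hwu hwv hmem
    obtain ⟨a, b, ⟨rfl, rfl⟩ | ⟨rfl, rfl⟩⟩ := hadj u v huv
    · exact hvert a b w hwu hwv hmem
    · rw [segment_symm] at hmem
      exact hvert a b w hwv hwu hmem
  · intro u v u' v' huv hu'v' hne q hq hq'
    obtain ⟨a, b, hab⟩ := hadj u v huv
    obtain ⟨a', b', hab'⟩ := hadj u' v' hu'v'
    have hq1 : q ∈ segment ℝ (toReal (place L x y i z (Sum.inl a)))
        (toReal (place L x y i z (Sum.inr b))) := by
      rcases hab with ⟨rfl, rfl⟩ | ⟨rfl, rfl⟩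
      · exact hq
      · rwa [segment_symm]
    have hq2 : q ∈ segment ℝ (toReal (place L x y i z (Sum.inl a')))
        (toReal (place L x y i z (Sum.inr b'))) := by
      rcases hab' with ⟨rfl, rfl⟩ | ⟨rfl, rfl⟩
      · exact hq'
      · rwa [segment_symm]
    have hne' : ¬ (a = a' ∧ b = b') := by
      rintro ⟨rfl, rfl⟩
      apply hne
      rcases hab with ⟨rfl, rfl⟩ | ⟨rfl, rfl⟩ <;> rcases hab' with ⟨rfl, rfl⟩ | ⟨rfl, rfl⟩
      · rfl
      · exact Sym2.eq_swap
      · exact Sym2.eq_swap
      · rfl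
    rcases hedge a a' b b' q hne' hq1 hq2 with ⟨rfl, hqa⟩ | ⟨rfl, hqb⟩
    · refine ⟨Sum.inl a, ?_, ?_, hqa⟩
      · rcases hab with ⟨rfl, rfl⟩ | ⟨rfl, rfl⟩
        · exact Or.inl rfl
        · exact Or.inr rfl
      · rcases hab' with ⟨rfl, rfl⟩ | ⟨rfl, rfl⟩
        · exact Or.inl rfl
        · exact Or.inr rfl
    · refine ⟨Sum.inr b, ?_, ?_, hqb⟩
      · rcases hab with ⟨rfl, rfl⟩ | ⟨rfl, rfl⟩
        · exact Or.inr rfl
        · exact Or.inl rfl
      · rcases hab' with ⟨rfl, rfl⟩ | ⟨rfl, rfl⟩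
        · exact Or.inr rfl
        · exact Or.inl rfl

end Pool.Agent.H49.KNN
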