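import Pool.Agent.H49.KNN.Finite
import Pool.Agent.H49.KNN.Codes

/-!
# The drawing with parameter `P`: all primes up to `P`
-/

namespace Pool.Agent.H49.KNN

open Finset

theorem primorial_succ_of_prime {n : ℕ} (h : (n + 1).Prime) :
    primorial (n + 1) = (n + 1) * primorial n := by
  rw [primorial_eq_prod_primesLE, primorial_eq_prod_primesLE, Nat.primesLE_succ, if_pos h,
    prod_insert (Nat.notMem_primesLE n)]

theorem primorial_succ_of_not_prime {n : ℕ} (h : ¬ (n + 1).Prime) :
    primorial (n + 1) = primorial n := by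
  rw [primorial_eq_prod_primesLE, primorial_eq_prod_primesLE, Nat.primesLE_succ, if_neg h]

/-- The product of the primes up to `P` is at most `P` times its totient. -/
theorem primorial_le_mul_totient (P : ℕ) (hP : 1 ≤ P) :
    primorial P ≤ P * (primorial P).totient := by
  induction P, hP using Nat.le_induction with
  | base => simp
  | succ n hn ih =>
    by_cases h : (n + 1).Prime
    · rw [primorial_succ_of_prime h]
      have hcop : Nat.Coprime (n + 1) (primorial n) := by
        rw [Nat.Prime.coprime_iff_not_dvd h]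
        intro hd
        have := (h.dvd_primorial_iff).mp hd
        omega
      rw [Nat.totient_mul hcop, Nat.totient_prime h]
      calc (n + 1) * primorial n ≤ (n + 1) * (n * (primorial n).totient) :=
            Nat.mul_le_mul_left _ ih
        _ = (n + 1) * ((n + 1 - 1) * (primorial n).totient) := by simp
    · rw [primorial_succ_of_not_prime h]
      exact ih.trans (Nat.mul_le_mul_right _ (Nat.le_succ n))

/-- The family of the primes up to `P`. -/
abbrev PrimesUpTo (P : ℕ) : Type := {p : ℕ // p ∈ Nat.primesLE P}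

/-- The inclusion of the primes. -/
def prVal (P : ℕ) : PrimesUpTo P → ℕ := fun p => p.1

theorem prVal_prime (P : ℕ) (j : PrimesUpTo P) : (prVal P j).Prime :=
  Nat.prime_of_mem_primesLE j.2

theorem prVal_injective (P : ℕ) : Function.Injective (prVal P) := Subtype.val_injective

theorem card_primesUpTo (P : ℕ) : Fintype.card (PrimesUpTo P) = Nat.primeCounting P := by
  rw [Fintype.card_coe]; exact Nat.primesLE_card_eq_primeCounting P

theorem qProd_eq (P : ℕ) : qProd (prVal P) = primorial P := by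
  rw [primorial_eq_prod_primesLE]
  unfold qProd prVal
  exact Finset.prod_coe_sort (Nat.primesLE P) (fun p => p)

theorem primorial_le_pow (P : ℕ) : primorial P ≤ P ^ Nat.primeCounting P := by
  rw [primorial_eq_prod_primesLE, ← Nat.primesLE_card_eq_primeCounting]
  exact Finset.prod_le_pow_card _ _ _ (fun p hp => Nat.le_of_mem_primesLE hp)

theorem primeCounting_le (P : ℕ) : Nat.primeCounting P ≤ P := by
  rw [← Nat.primesLE_card_eq_primeCounting, Nat.primesLE_eq_filter_Icc_one]
  refine (card_filter_le _ _).trans ?_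
  simp

/-- **The drawing with parameter `P`.** -/
theorem drawn_of_param (P : ℕ) (hP : 4 ^ 8 ≤ P) (hs : 54 ≤ Nat.primeCounting P) (n : ℕ)
    (hn : 4 ^ (P ^ 10 + P) ≤ n) :
    ∃ m : ℕ, 1 ≤ m ∧ CanBeDrawn (Knn n) m m m ∧
      (m : ℝ) * ((27 / 16 : ℝ) ^ (Nat.primeCounting P / 4) - 1) ≤ 2 * n * P := by
  classical
  set s := Nat.primeCounting P with hsd
  have hcard : Fintype.card (PrimesUpTo P) = s := card_primesUpTo P
  set d := s / 4 with hd
  have hd1 : 1 ≤ d := by omega
  have hds : d ≤ Fintype.card (PrimesUpTo P) := by rw [hcard]; omega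
  set q := P ^ 9 with hq
  have hPpos : 0 < P := by have : (0 : ℕ) < 4 ^ 8 := by norm_num
                           omega
  have hq1 : 1 ≤ q := Nat.one_le_pow _ _ hPpos
  set Q := primorial P with hQ
  have hQpos : 0 < Q := primorial_pos P
  have hQ2 : 2 ≤ Q := by
    have h2 : primorial 2 ≤ primorial P := primorial_mono (by
      have : (2 : ℕ) ≤ 4 ^ 8 := by norm_num
      omega)
    rwa [primorial_two] at h2
  -- the two codes
  obtain ⟨C, hCu, hCd, hCc⟩ := exists_set_code (ι := PrimesUpTo P) d hd1 hds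
  obtain ⟨F, hFd, hFc⟩ := exists_word_code (ι := PrimesUpTo P) d q hq1 hds
  rw [hcard] at hCc hFc
  set C' := C.erase univ with hC'
  have hC'c : C'.card = C.card - 1 := card_erase_of_mem hCu
  have hCcr : ((27 / 16 : ℝ) ^ d) ≤ C.card := by
    have h1 : ((3 : ℝ) ^ (s - d)) ≤ C.card * 2 ^ s := by exact_mod_cast hCc
    obtain ⟨r, hr⟩ : ∃ r, s = 4 * d + r := ⟨s - 4 * d, by omega⟩
    have e1 : s - d = 3 * d + r := by omega
    have h2 : ((27 / 16 : ℝ) ^ d) * 2 ^ s ≤ (3 : ℝ) ^ (s - d) := by
      rw [e1, hr, pow_add, pow_add, pow_mul, pow_mul, ← mul_assoc, ← mul_pow]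
      have h3 : (27 / 16 : ℝ) * 2 ^ 4 = 3 ^ 3 := by norm_num
      rw [h3]
      apply mul_le_mul_of_nonneg_left _ (by positivity)
      exact pow_le_pow_left₀ (by norm_num) (by norm_num) r
    have h4 : (0 : ℝ) < 2 ^ s := by positivity
    exact le_of_mul_le_mul_right (h2.trans h1) h4
  have hCcle : C.card ≤ 2 ^ s := by
    have := card_le_univ C
    rwa [Fintype.card_finset, hcard] at this
  have hCgt : 1 < C.card := by
    have h1 : (1 : ℝ) < (27 / 16 : ℝ) ^ d := one_lt_pow₀ (by norm_num) (by omega)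
    exact_mod_cast h1.trans_le hCcr
  have hC'pos : 0 < C'.card := by omega
  have hC'le : C'.card ≤ 2 ^ s := by omega
  -- the size of `F`
  have hFbig : 2 ^ s * Q ^ 2 ≤ F.card := by
    have h1 : Q ≤ P ^ s := primorial_le_pow P
    have h2 : Q ^ 2 ≤ P ^ (2 * s) := by
      rw [mul_comm, pow_mul]; exact Nat.pow_le_pow_left h1 2
    have h3 : 4 ^ s ≤ P ^ (d - 6) := by
      calc 4 ^ s ≤ 4 ^ (8 * (d - 6)) := Nat.pow_le_pow_right (by norm_num) (by omega)
        _ = (4 ^ 8) ^ (d - 6) := by rw [pow_mul]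
        _ ≤ P ^ (d - 6) := Nat.pow_le_pow_left hP _
    have h4 : 4 ^ s * Q ^ 2 ≤ q ^ d := by
      calc 4 ^ s * Q ^ 2 ≤ P ^ (d - 6) * P ^ (2 * s) := Nat.mul_le_mul h3 h2
        _ = P ^ (d - 6 + 2 * s) := by rw [pow_add]
        _ ≤ P ^ (9 * d) := Nat.pow_le_pow_right hPpos (by omega)
        _ = q ^ d := by rw [hq, pow_mul]
    have h5 : 2 ^ s * (2 ^ s * Q ^ 2) ≤ 2 ^ s * F.card := by
      calc 2 ^ s * (2 ^ s * Q ^ 2) = 4 ^ s * Q ^ 2 := by
            rw [show (4 : ℕ) = 2 * 2 from rfl, mul_pow]; ring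
        _ ≤ q ^ d := h4
        _ ≤ F.card * 2 ^ s := hFc
        _ = 2 ^ s * F.card := mul_comm _ _
    exact Nat.le_of_mul_le_mul_left h5 (by positivity)
  -- `n` is large
  have hQq : Q ^ q * 2 ^ s ≤ n := by
    have h1 : Q ≤ 4 ^ P := primorial_le_four_pow P
    have h2 : s ≤ P := primeCounting_le P
    calc Q ^ q * 2 ^ s ≤ (4 ^ P) ^ q * 4 ^ P := by
          apply Nat.mul_le_mul (Nat.pow_le_pow_left h1 _)
          exact (Nat.pow_le_pow_left (by norm_num) s).trans
            (Nat.pow_le_pow_right (by norm_num) h2)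
      _ = 4 ^ (P * q + P) := by rw [← pow_mul, ← pow_add]
      _ = 4 ^ (P ^ 10 + P) := by rw [hq]; congr 2; ring
      _ ≤ n := hn
  have hnpos : 0 < n := lt_of_lt_of_le (by positivity) hQq
  have hnC : C'.card * Q ^ q ≤ n := by
    calc C'.card * Q ^ q ≤ 2 ^ s * Q ^ q := Nat.mul_le_mul_right _ hC'le
      _ = Q ^ q * 2 ^ s := mul_comm _ _
      _ ≤ n := hQq
  set D := C'.card * Q ^ 2 with hD
  have hDpos : 0 < D := by positivity
  set k := n * P / D + 1 with hk
  have hDk : n * P < D * k := Nat.lt_mul_div_succ _ hDpos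
  have hDk' : D * k ≤ n * P + D := by
    rw [hk, mul_add, mul_one]
    have := Nat.mul_div_le (n * P) D
    omega
  refine ⟨Q ^ 2 * k, ?_, ?_, ?_⟩
  · exact Nat.mul_pos (by positivity) (Nat.succ_pos _)
  · refine canBeDrawn_of_codes (pr := prVal P) (k := k) (prVal_prime P) (prVal_injective P) hq1
      C' F ?_ ?_ ?_ ?_ ?_ ?_ ?_
    · intro S hS
      have hSne : S ≠ univ := (mem_erase.mp hS).1
      by_contra hcon
      push Not at hcon
      exact hSne (eq_univ_iff_forall.mpr hcon)
    · intro S hS S' hS' hne f hf f' hf' hff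
      have h1 := hCd S (mem_of_mem_erase hS) S' (mem_of_mem_erase hS') hne
      have h2 := hFd f hf f' hf' hff
      by_contra hcon
      push Not at hcon
      have h3 : symmDiff S S' ⊆ univ.filter (fun j => f j = f' j) := by
        intro j hj
        rw [mem_filter]
        refine ⟨mem_univ _, ?_⟩
        by_contra hfj
        have h4 := hcon j hfj
        rw [mem_symmDiff] at hj
        rcases hj with ⟨h5, h6⟩ | ⟨h5, h6⟩
        · exact h6 (h4.mp h5)
        · exact h6 (h4.mpr h5)
      have := card_le_card h3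
      omega
    · intro S hS f hf f' hf' hff
      have hSne : S ≠ univ := (mem_erase.mp hS).1
      have h1 := hCd S (mem_of_mem_erase hS) univ hCu hSne
      have h2 := hFd f hf f' hf' hff
      by_contra hcon
      push Not at hcon
      have h3 : symmDiff S univ ⊆ univ.filter (fun j => f j = f' j) := by
        intro j hj
        rw [mem_filter]
        refine ⟨mem_univ _, ?_⟩
        by_contra hfj
        have h4 := hcon j hfj
        rw [mem_symmDiff] at hj
        rcases hj with ⟨_, h6⟩ | ⟨_, h6⟩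
        · exact h6 (mem_univ j)
        · exact h6 h4
      have := card_le_card h3
      omega
    · -- `n ≤ |C'| (Q k φ(Q))`
      rw [qProd_eq, ← hQ]
      have h1 : Q ≤ P * Q.totient := primorial_le_mul_totient P hPpos
      have h2 : n * P ≤ (C'.card * (Q * k * Q.totient)) * P := by
        calc n * P ≤ D * k := hDk.le
          _ = C'.card * (Q * k) * Q := by rw [hD]; ring
          _ ≤ C'.card * (Q * k) * (P * Q.totient) := Nat.mul_le_mul_left _ h1
          _ = (C'.card * (Q * k * Q.totient)) * P := by ring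
      exact Nat.le_of_mul_le_mul_right h2 hPpos
    · -- `n ≤ |F| k`
      have h1 : D ≤ F.card := by
        refine le_trans ?_ hFbig
        exact Nat.mul_le_mul_right _ hC'le
      calc n = n * 1 := (mul_one n).symm
        _ ≤ n * P := Nat.mul_le_mul_left _ hPpos
        _ ≤ D * k := hDk.le
        _ ≤ F.card * k := Nat.mul_le_mul_right _ h1
    · rw [qProd_eq]
    · rw [qProd_eq, ← hQ]
      have h1 : C'.card * Q ^ q ≤ C'.card * (Q ^ 2 * k) := by
        calc C'.card * Q ^ q ≤ n := hnC
          _ = n * 1 := (mul_one n).symm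
          _ ≤ n * P := Nat.mul_le_mul_left _ hPpos
          _ ≤ D * k := hDk.le
          _ = C'.card * (Q ^ 2 * k) := by rw [hD]; ring
      exact Nat.le_of_mul_le_mul_left h1 hC'pos
  · -- the size of `m`
    have h1 : ((27 / 16 : ℝ) ^ d - 1) ≤ (C'.card : ℝ) := by
      rw [hC'c, Nat.cast_sub (by omega)]
      push_cast
      linarith
    have h2 : D ≤ n * P := by
      have h3 : Q ^ 2 ≤ Q ^ q := by
        apply Nat.pow_le_pow_right hQpos
        calc 2 ≤ P := by have : (2 : ℕ) ≤ 4 ^ 8 := by norm_num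
                         omega
          _ = P ^ 1 := (pow_one P).symm
          _ ≤ P ^ 9 := Nat.pow_le_pow_right hPpos (by norm_num)
      calc D ≤ C'.card * Q ^ q := Nat.mul_le_mul_left _ h3
        _ ≤ n := hnC
        _ = n * 1 := (mul_one n).symm
        _ ≤ n * P := Nat.mul_le_mul_left _ hPpos
    have h4 : (Q ^ 2 * k) * C'.card ≤ 2 * (n * P) := by
      calc (Q ^ 2 * k) * C'.card = D * k := by rw [hD]; ring
        _ ≤ n * P + D := hDk'
        _ ≤ 2 * (n * P) := by omega
    have h5 : (((Q ^ 2 * k : ℕ) : ℝ)) * (C'.card : ℝ) ≤ 2 * (n * P) := by exact_mod_cast h4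
    calc ((Q ^ 2 * k : ℕ) : ℝ) * ((27 / 16 : ℝ) ^ d - 1)
        ≤ ((Q ^ 2 * k : ℕ) : ℝ) * (C'.card : ℝ) :=
          mul_le_mul_of_nonneg_left h1 (by positivity)
      _ ≤ 2 * (n * P) := h5
      _ = 2 * n * P := by ring

end Pool.Agent.H49.KNN
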