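import Pool.Agent.H49.KNN.Asym

/-!
# `K_{n,n}` in a cube of side `o(n)`

For all large `n` the complete bipartite graph `K_{n,n}` has a three-dimensional grid drawing in
a cube of side at most `n exp(-(log n)^(1/12))`; so `m(n) = o(n)`, and the side is smaller than
`n / (log n)^A` for every `A`.
-/

namespace Pool.Agent.H49.KNN.SubpolynomialGain

open Pool.Agent.H49.KNN

/-- For all large `n`: the least side length `m(n)` of a cube in which `K_{n,n}` can be drawn is
at most `n exp(-(log n)^(1/12))` (and `K_{n,n}` can be drawn in the cube of side `m(n)`). -/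
theorem result : ∃ n₀ : ℕ, ∀ n : ℕ, n₀ ≤ n →
    CanBeDrawn (Knn n) (sideLength n) (sideLength n) (sideLength n) ∧
      (sideLength n : ℝ) ≤ n * Real.exp (-(Real.log n) ^ (1 / 12 : ℝ)) := by
  obtain ⟨n₀, hn₀⟩ := Filter.eventually_atTop.mp exists_drawing
  refine ⟨n₀, fun n hn => ?_⟩
  obtain ⟨m, hm1, hm2, hm3⟩ := hn₀ n hn
  have hmem : m ∈ {m : ℕ | 1 ≤ m ∧ CanBeDrawn (Knn n) m m m} := ⟨hm1, hm2⟩
  refine ⟨(Nat.sInf_mem ⟨m, hmem⟩).2, ?_⟩
  have h1 : sideLength n ≤ m := Nat.sInf_le hmem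
  have h2 : (sideLength n : ℝ) ≤ m := by exact_mod_cast h1
  exact h2.trans hm3

end Pool.Agent.H49.KNN.SubpolynomialGain
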